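import Mathlib

set_option autoImplicit false
open Complex Set Filter Topology

namespace Pool.Agent.H.MP_7009f9

theorem exE : ∃ E : ℂ → ℂ, ∀ w, HasDerivAt E (dslope cexp 0 w) w :=
  (differentiableOn_univ.1 ((differentiableOn_dslope univ_mem).2
    differentiable_exp.differentiableOn)).isExactOn_univ.imp fun _ h w => h w trivial

noncomputable def E : ℂ → ℂ := exE.choose

theorem dre {f : ℂ → ℂ} {f' : ℂ} {γ : ℝ → ℂ} {γ' : ℂ} {t : ℝ} (hγ : HasDerivAt γ γ' t)
    (hf : HasDerivAt f f' (γ t)) : HasDerivAt (fun t => (f (γ t)).re) (f' * γ').re t := by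
  simpa [Function.comp_def, mul_comm] using reCLM.hasFDerivAt.comp_hasDerivAt t
    ((hf.hasFDerivAt.restrictScalars ℝ).comp_hasDerivAt t hγ)

noncomputable def p (u z : ℂ) : ℝ := Real.log ‖z‖ + (E (u * z)).re

theorem dp {u : ℂ} (hu : u ≠ 0) {γ : ℝ → ℂ} {γ' : ℂ} {t : ℝ} (hγ : HasDerivAt γ γ' t)
    (h0 : γ t ≠ 0) : HasDerivAt (fun t => p u (γ t)) (cexp (u * γ t) / γ t * γ').re t := by
  have h1 := dre hγ ((exE.choose_spec (u * γ t)).comp (γ t) ((hasDerivAt_id (γ t)).const_mul u))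
  have h2 := dre hγ (hasDerivAt_id (γ t))
  have h3 := dre hγ ((hasDerivAt_id (γ t)).const_mul (-I))
  have n : normSq (γ t) ≠ 0 := by simpa using h0
  have h4 := (((h2.mul h2).add (h3.mul h3)).log (by simpa [normSq_apply] using n)).div_const 2
  have e : ∀ t, Real.log ‖γ t‖ = Real.log (normSq (γ t)) / 2 := fun t => by
    rw [normSq_eq_norm_sq, Real.log_pow]
    ring
  simp only [p, e]
  refine HasDerivAt.congr_deriv (HasDerivAt.add (by simpa [normSq_apply] using h4) h1) ?_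
  rw [dslope_of_ne _ (mul_ne_zero hu h0), slope_def_field, show cexp (u * γ t) / γ t * γ' =
    (cexp (u * γ t) - cexp 0) / (u * γ t - 0) * (u * 1) * γ' + γ' / γ t by simp; field_simp; ring,
    add_re, add_comm, div_re, normSq_apply]
  congr 1
  rw [normSq_apply] at n
  field_simp
  ring

theorem mono {D : Set ℝ} (hD : Convex ℝ D) {f f' : ℝ → ℝ} (h : ∀ t ∈ D, HasDerivAt f (f' t) t)
    (h0 : ∀ t ∈ D, 0 ≤ f' t) : MonotoneOn f D :=
  monotoneOn_of_deriv_nonneg hD (fun t a => (h t a).continuousAt.continuousWithinAt)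
    (fun t a => (h t (interior_subset a)).differentiableAt.differentiableWithinAt)
    fun t a => (h t (interior_subset a)).deriv ▸ h0 t (interior_subset a)

noncomputable def a : ℝ := (4 * Real.exp 9)⁻¹

theorem a0 : 0 < a := by unfold a; positivity

theorem a1 : a ≤ 1 / 4 := by
  rw [a, one_div]
  exact inv_anti₀ (by norm_num) (by nlinarith [Real.add_one_le_exp 9])

theorem ray {c : ℂ} (hc : ‖c‖ = a) (c0 : c.re ≤ 0) {g : ℝ → ℝ}
    (hg : ∀ t : ℝ, 0 < t → HasDerivAt g ((cexp (c * t)).re / t) t) {r : ℝ} (hr : 1 < r) :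
    g r⁻¹ < g r := by
  have := a0
  have c1 : c ≠ 0 := fun h => by simp [h] at hc; linarith
  have T : 1 < Real.exp 9 := by nlinarith [Real.add_one_le_exp 9]
  have aT : a * Real.exp 9 = 1 / 4 := by unfold a; field_simp
  have n : ∀ t : ℝ, 0 < t → ∀ w, ‖w‖ = a⁻¹ → |(cexp (c * t) * w).re| ≤ a⁻¹ := fun t ht w hw =>
    (abs_re_le_norm _).trans (by
      rw [norm_mul, hw, norm_exp]
      exact mul_le_of_le_one_left (by positivity) (Real.exp_le_one_iff.2 (by simp; nlinarith)))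
  have m1 := mono (convex_Ioc 0 (Real.exp 9)) (fun t ht => (hg t ht.1).sub
    ((Real.hasDerivAt_log ht.1.ne').div_const 2)) fun t ht => by
      have h1 : ‖c * t‖ ≤ 1 / 4 := by
        rw [norm_mul, hc, norm_real, Real.norm_of_nonneg ht.1.le, ← aT]
        exact mul_le_mul_of_nonneg_left ht.2 this.le
      have h2 := (abs_re_le_norm _).trans (norm_exp_sub_one_le (h1.trans (by norm_num)))
      have h3 := ht.1
      rw [sub_re, one_re, abs_le] at h2
      rw [show (cexp (c * t)).re / t - t⁻¹ / 2 = ((cexp (c * t)).re - 1 / 2) / t by ring]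
      exact div_nonneg (by linarith) h3.le
  have m2 := mono (convex_Ioi 0) (fun t ht => (hg t ht).sub (((dre (hasDerivAt_id t).ofReal_comp
    (((hasDerivAt_id _).const_mul c).cexp.mul_const c⁻¹)).add_const a⁻¹).fun_div (hasDerivAt_id t)
      (ne_of_gt ht))) fun t ht => by
      have h1 := abs_le.1 (n t ht c⁻¹ (by simp [hc]))
      have h3 : 0 < t := ht
      simp only [id, ofReal_one, mul_one, mul_inv_cancel_right₀ c1]
      rw [show (cexp (c * t)).re / t - ((cexp (c * t)).re * t - ((cexp (c * t) * c⁻¹).re + a⁻¹)) /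
        t ^ 2 = ((cexp (c * t) * c⁻¹).re + a⁻¹) / t ^ 2 by field_simp; ring]
      exact div_nonneg (by linarith) (by positivity)
  have r0 : 0 < r := by linarith
  have r1 : r⁻¹ < 1 := inv_lt_one_of_one_lt₀ hr
  have l := Real.log_pos hr
  rcases le_total r (Real.exp 9) with h | h
  · have := m1 ⟨inv_pos.2 r0, by linarith⟩ ⟨r0, h⟩ (by linarith)
    simp only [Pi.sub_apply, Real.log_inv] at this
    linarith
  · have k1 := m1 ⟨inv_pos.2 r0, by linarith⟩ ⟨by linarith, le_rfl⟩ (by linarith)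
    have k2 := m2 (Real.exp_pos 9) r0 h
    have k3 := abs_le.1 (n r r0 c⁻¹ (by simp [hc]))
    have k4 := abs_le.1 (n _ (Real.exp_pos 9) c⁻¹ (by simp [hc]))
    simp only [Pi.sub_apply, Real.log_inv, Real.log_exp, id] at k1 k2
    have k5 : 0 ≤ ((cexp (c * r) * c⁻¹).re + a⁻¹) / r := div_nonneg (by linarith) r0.le
    have k6 : ((cexp (c * Real.exp 9) * c⁻¹).re + a⁻¹) / Real.exp 9 ≤ 8 := by
      rw [div_le_iff₀ (Real.exp_pos 9)]
      have : a⁻¹ = 4 * Real.exp 9 := inv_inv _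
      linarith
    linarith [(Real.le_log_iff_exp_le r0).2 h]

noncomputable def x (z : ℂ) : Fin 4 → ℝ :=
  ![p a z - p (-a) z, (z + z⁻¹).re, (-I * (z - z⁻¹)).re, p a z + p (-a) z]

noncomputable def A (i : Fin 4) (z : ℂ) : ℂ :=
  ![cexp (a * z) / z - cexp (-a * z) / z, 1 - z⁻¹ ^ 2, -I * (1 + z⁻¹ ^ 2),
    cexp (a * z) / z + cexp (-a * z) / z] i

theorem dx (i : Fin 4) {γ : ℝ → ℂ} {γ' : ℂ} {t : ℝ} (hγ : HasDerivAt γ γ' t) (h0 : γ t ≠ 0) :
    HasDerivAt (fun t => x (γ t) i) (A i (γ t) * γ').re t := by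
  have a2 : (a : ℂ) ≠ 0 := ofReal_ne_zero.2 a0.ne'
  have h1 := dp a2 hγ h0
  have h2 := dp (neg_ne_zero.2 a2) hγ h0
  fin_cases i
  · exact (h1.sub h2).congr_deriv (by simp [A, sub_mul])
  · exact dre hγ (f' := 1 - (γ t)⁻¹ ^ 2) (((hasDerivAt_id _).add (hasDerivAt_inv h0)).congr_deriv
      (by simp [sub_eq_add_neg]))
  · exact (dre hγ (((hasDerivAt_id _).sub (hasDerivAt_inv h0)).const_mul (-I))).congr_deriv
      (by simp [A])
  · exact (h1.add h2).congr_deriv (by simp [A, add_mul])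

theorem sm : ContDiffOn ℝ (⊤ : ℕ∞) x {0}ᶜ := by
  have e : ContDiff ℝ (⊤ : ℕ∞) E := (Differentiable.contDiff fun w =>
    (exE.choose_spec w).differentiableAt).restrict_scalars ℝ
  have r := reCLM.contDiff (n := (⊤ : ℕ∞))
  have h : ∀ u, ContDiffOn ℝ (⊤ : ℕ∞) (p u) {0}ᶜ := fun u z hz =>
    (((contDiffAt_norm ℝ hz).log (norm_ne_zero_iff.2 hz)).add
      (r.comp (e.comp (contDiff_const.mul contDiff_id))).contDiffAt).contDiffWithinAt
  have v : ContDiffOn ℝ (⊤ : ℕ∞) (fun z : ℂ => z⁻¹) {0}ᶜ := contDiffOn_id.inv fun z hz => hz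
  refine contDiffOn_pi.2 fun i => ?_
  fin_cases i
  exacts [(h _).sub (h _), r.comp_contDiffOn (contDiffOn_id.add v),
    r.comp_contDiffOn (contDiffOn_const.mul (contDiffOn_id.sub v)), (h _).add (h _)]

theorem line (z v : ℂ) (t : ℝ) : HasDerivAt (fun t : ℝ => z + t * v) v t := by
  simpa using ((hasDerivAt_id t).ofReal_comp.mul_const v).const_add z

theorem fd {z : ℂ} (hz : z ≠ 0) (v : ℂ) (i : Fin 4) : fderiv ℝ x z v i = (A i z * v).re := by
  have h := ((sm.contDiffAt (isOpen_compl_singleton.mem_nhds hz)).differentiableAt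
    (by simp)).hasFDerivAt.comp_hasDerivAt_of_eq 0 (line z v 0) (by simp)
  simpa using (hasDerivAt_pi.1 h i).unique (dx i (line z v 0) (by simpa using hz))

theorem har {z : ℂ} (hz : z ≠ 0) (v : ℂ) (i : Fin 4) :
    deriv (deriv fun t : ℝ => x (z + t * v) i) 0 = (deriv (A i) z * v * v).re := by
  have h : DifferentiableAt ℂ (A i) z := by
    unfold A
    fin_cases i <;> simp <;> fun_prop (disch := simpa using hz)
  rw [EventuallyEq.deriv_eq (f := fun t : ℝ => (A i (z + t * v) * v).re)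
    (((line z v 0).continuousAt.eventually_ne (by simpa using hz)).mono fun t a =>
      (dx i (line z v t) a).deriv)]
  exact (dre (line z v 0) (f := fun w => A i w * v)
    (by simpa using h.hasDerivAt.mul_const v)).deriv

noncomputable def ρ (z : ℂ) : ℝ :=
  1 + 2 * Real.cos (2 * a * z.im) * (normSq z)⁻¹ + (normSq z)⁻¹ ^ 2

theorem met {z : ℂ} (hz : z ≠ 0) (v : ℂ) : -(A 0 z * v).re ^ 2 + (A 1 z * v).re ^ 2 +
    (A 2 z * v).re ^ 2 + (A 3 z * v).re ^ 2 = ρ z * ‖v‖ ^ 2 := by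
  obtain ⟨q, rfl⟩ : ∃ q, v = z * q := ⟨z⁻¹ * v, by field_simp⟩
  have n : normSq z ≠ 0 := by simpa using hz
  have h1 : Real.exp (a * z.re) * Real.exp (-(a * z.re)) = 1 := by simp [← Real.exp_add]
  have h2 := Real.sin_sq_add_cos_sq (a * z.im)
  rw [show A 0 z * (z * q) = (cexp (a * z) - cexp (-a * z)) * q by simp [A]; field_simp,
    show A 1 z * (z * q) = (z - z⁻¹) * q by simp [A]; field_simp,
    show A 2 z * (z * q) = -I * (z + z⁻¹) * q by simp [A]; field_simp,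
    show A 3 z * (z * q) = (cexp (a * z) + cexp (-a * z)) * q by simp [A]; field_simp,
    ← normSq_eq_norm_sq, ρ, map_mul, mul_assoc 2 a, Real.cos_two_mul]
  simp [exp_re, exp_im]
  rw [normSq_apply] at *
  rw [normSq_apply]
  field_simp
  grind

theorem rl (z : ℂ) : (1 + (normSq z)⁻¹) ^ 2 ≤ 4 * ρ z := by
  have h1 := Real.one_sub_sq_div_two_le_cos (x := 2 * a * z.im)
  have h2 : z.im ^ 2 * (normSq z)⁻¹ ≤ 1 := mul_inv_le_one_of_le₀
    (by rw [normSq_apply]; nlinarith [sq_nonneg z.re]) (normSq_nonneg z)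
  have h3 : 0 ≤ (normSq z)⁻¹ := inv_nonneg.2 (normSq_nonneg z)
  have h4 : a ^ 2 ≤ 1 / 16 := by nlinarith [a0, a1]
  have h5 := mul_le_mul h4 h2 (by positivity) (by norm_num)
  unfold ρ
  nlinarith [mul_le_mul_of_nonneg_right h1 h3, sq_nonneg (normSq z)⁻¹]

theorem r0 (z : ℂ) : 0 < ρ z := by
  have := rl z
  nlinarith [inv_nonneg.2 (normSq_nonneg z), sq_nonneg (normSq z)⁻¹]

theorem ph (z : ℂ) : (x z 1 : ℂ) + x z 2 * I = z * (1 + (normSq z)⁻¹ : ℝ) := by
  apply Complex.ext <;> simp [x, div_eq_mul_inv] <;> ring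

theorem nph {z : ℂ} (hz : z ≠ 0) : ‖(x z 1 : ℂ) + x z 2 * I‖ = ‖z‖ + ‖z‖⁻¹ := by
  have := norm_ne_zero_iff.2 hz
  rw [ph, norm_mul, norm_real, normSq_eq_norm_sq, Real.norm_of_nonneg (by positivity)]
  field_simp

theorem inj : InjOn x {0}ᶜ := by
  intro z hz w hw h
  have h1 := nph hz
  have h2 := ph z
  rw [h, nph hw] at h1
  rw [h, ph] at h2
  have z0 := norm_pos_iff.2 hz
  have w0 := norm_pos_iff.2 hw
  have k : ∀ z w : ℂ, z ≠ 0 → 1 < ‖z‖ → w = z * (‖z‖⁻¹ ^ 2 : ℝ) → x z ≠ x w := fun z w hz z1 e h => by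
    have z0 : (‖z‖ : ℂ) ≠ 0 := by simpa using hz
    have g : ∀ u : ℝ, |u| = a → (u * z).re ≤ 0 → p u z ≠ p u w := fun u u1 u2 h => by
      have u0 : (u : ℂ) ≠ 0 := fun h => by simp_all [a0.ne]
      have := ray (c := u * (z / ‖z‖)) (by simp [u1, hz]) (by
        rw [← mul_div_assoc, div_ofReal_re]
        exact div_nonpos_of_nonpos_of_nonneg u2 (norm_nonneg _))
        (g := fun t => p u (0 + t * (z / ‖z‖))) (fun t ht => (dp u0 (line 0 _ t)
          (by simp [hz, ht.ne'])).congr_deriv (by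
            have : (t : ℂ) ≠ 0 := ofReal_ne_zero.2 ht.ne'
            rw [← div_ofReal_re]
            congr 1
            field_simp
            simp [mul_assoc])) z1
      rw [show 0 + (‖z‖⁻¹ : ℝ) * (z / ‖z‖) = w by rw [e]; push_cast; field_simp; simp,
        show 0 + (‖z‖ : ℝ) * (z / ‖z‖) = z by field_simp; simp] at this
      exact this.ne' h
    have h0 := congrFun h 0
    have h3 := congrFun h 3
    simp only [x, Matrix.cons_val] at h0 h3
    rcases le_total (a * z).re 0 with c | c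
    · exact g a (abs_of_pos a0) c (by linarith)
    · exact g (-a) (by simp [abs_of_pos a0]) (by simpa using c) (by push_cast; linarith)
  have : (‖z‖ - ‖w‖) * (‖z‖ * ‖w‖ - 1) = 0 := by field_simp at h1; linarith
  have q : ∀ z : ℂ, ((1 + (normSq z)⁻¹ : ℝ) : ℂ) ≠ 0 := fun z =>
    ofReal_ne_zero.2 (by have := normSq_nonneg z; positivity)
  have s : ‖z‖ = ‖w‖ → z = w := fun e => by
    rw [normSq_eq_norm_sq, ← e, ← normSq_eq_norm_sq] at h2
    exact (mul_right_cancel₀ (q z) h2).symm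
  rcases mul_eq_zero.1 this with e | e
  · exact s (by linarith)
  have t : ∀ z w : ℂ, 0 < ‖z‖ → ‖z‖ * ‖w‖ - 1 = 0 → w * (1 + (normSq w)⁻¹ : ℝ) =
      z * (1 + (normSq z)⁻¹ : ℝ) → w = z * (‖z‖⁻¹ ^ 2 : ℝ) := fun z w z0 e h => by
    refine mul_right_cancel₀ (q w) ?_
    rw [h, mul_assoc, ← ofReal_mul, normSq_eq_norm_sq, normSq_eq_norm_sq,
      show ‖w‖ = ‖z‖⁻¹ by field_simp; linarith]
    congr 2
    field_simp
    ring
  rcases lt_trichotomy ‖z‖ 1 with c | c | c
  · exact absurd h.symm (k w z hw (by nlinarith) (t w z w0 (by linarith) h2.symm))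
  · exact s (by rw [c] at e ⊢; linarith)
  · exact absurd h (k z w hz c (t z w z0 e h2))

theorem ann (M : ℝ) : ∃ S ⊆ {0}ᶜ, IsCompact S ∧ ∀ z ≠ 0, |x z 1| ≤ M → |x z 2| ≤ M → z ∈ S := by
  refine ⟨Metric.closedBall 0 (2 * |M|) \ Metric.ball 0 (2 * |M| + 1)⁻¹, fun z h e =>
    h.2 (e ▸ Metric.mem_ball_self (by positivity)),
    (isCompact_closedBall _ _).diff Metric.isOpen_ball, fun z hz h1 h2 => ?_⟩
  have h := norm_le_abs_re_add_abs_im ((x z 1 : ℂ) + x z 2 * I)
  have z0 := norm_pos_iff.2 hz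
  have := inv_pos.2 z0
  have := le_abs_self M
  rw [nph hz] at h
  simp at h ⊢
  exact ⟨by linarith, inv_le_of_inv_le₀ z0 (by linarith)⟩

end Pool.Agent.H.MP_7009f9
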