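import Pool.Agent.H.MP_7009f9.A

set_option autoImplicit false
open Complex Set Filter Topology MeasureTheory

namespace Pool.Agent.H.MP_7009f9

theorem d2 (σ τ Y κ : ℝ) (hσ : σ ≠ 0) {r : ℝ → ℝ} (h0 : ∀ t, 0 < r t) (hr : ∀ t, r t =
    1 + 2 * Real.cos (2 * a * (Y + κ * t)) * (σ ^ 2 + (τ + t) ^ 2)⁻¹ + (σ ^ 2 + (τ + t) ^ 2)⁻¹ ^ 2)
    {P : ℝ} (hP : P = (σ ^ 2 + τ ^ 2)⁻¹) : deriv (deriv fun t => Real.log (r t)) 0 ≤
      (-8 * a ^ 2 * κ ^ 2 * Real.cos (2 * a * Y) * P + 16 * a * κ * Real.sin (2 * a * Y) * τ * P ^ 2 +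
        8 * τ ^ 2 * P ^ 4 + (2 * Real.cos (2 * a * Y) + 2 * P) * (-2 * P ^ 2 + 8 * τ ^ 2 * P ^ 3)) /
          r 0 := by
  obtain rfl := funext hr
  have l := fun t => (hasDerivAt_id' t).const_add τ
  have s : ∀ t, HasDerivAt (fun t => (σ ^ 2 + (τ + t) ^ 2)⁻¹)
      (-2 * (τ + t) * (σ ^ 2 + (τ + t) ^ 2)⁻¹ ^ 2) t := fun t =>
    ((((l t).fun_pow 2).const_add (σ ^ 2)).fun_inv (by positivity)).congr_deriv (by
      simp; field_simp)
  have u := fun t => (((hasDerivAt_id' t).const_mul κ).const_add Y).const_mul (2 * a)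
  have r1 := fun t => ((((u t).cos.const_mul 2).fun_mul (s t)).const_add 1).fun_add ((s t).fun_pow 2)
  have r2 := ((((u 0).sin.fun_neg.mul_const (2 * a * (κ * 1))).const_mul 2).fun_mul (s 0)).fun_add
    (((u 0).cos.const_mul 2).fun_mul (((l 0).const_mul (-2)).fun_mul ((s 0).fun_pow 2))) |>.fun_add
    ((((s 0).fun_pow (2 - 1)).const_mul ((2 : ℕ) : ℝ)).fun_mul
      (((l 0).const_mul (-2)).fun_mul ((s 0).fun_pow 2)))
  have g : ∀ A B C : ℝ, 0 < B → (A * B - C * C) / B ^ 2 ≤ A / B := fun A B C h => by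
    rw [div_le_div_iff₀ (by positivity) h]
    nlinarith [mul_nonneg (mul_self_nonneg C) h.le]
  rw [funext fun t => ((r1 t).log (h0 t).ne').deriv, (r2.fun_div (r1 0) (h0 0).ne').deriv]
  refine (g _ _ _ (h0 0)).trans (le_of_eq ?_)
  congr 1
  simp only [mul_zero, add_zero, ← hP]
  norm_num
  ring

theorem cur {z : ℂ} (hx : 0 < z.re) (hy : 3 ≤ a * z.im) (hc : 1 / 2 ≤ Real.cos (2 * a * z.im))
    (hs : Real.sin (2 * a * z.im) ≤ 0) : a ^ 2 * (normSq z)⁻¹ ≤
      |-(deriv (deriv fun t : ℝ => Real.log (ρ (z + t))) 0 +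
        deriv (deriv fun t : ℝ => Real.log (ρ (z + t * I))) 0) / (2 * ρ z)| * ρ z := by
  have := a0
  have := a1
  have y0 : 0 < z.im := by nlinarith
  obtain ⟨P, hP⟩ : ∃ P, P = (normSq z)⁻¹ := ⟨_, rfl⟩
  have h1 := d2 z.im z.re z.im 0 y0.ne' (fun t => r0 (z + t))
    (fun t => by simp [ρ, normSq_apply, sq, add_comm]) (P := P) (by simp [hP, normSq_apply, sq, add_comm])
  have h2 := d2 z.re z.im z.im 1 hx.ne' (fun t => r0 (z + t * I))
    (fun t => by simp [ρ, normSq_apply, sq]) (P := P) (by simp [hP, normSq_apply, sq])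
  have n : 0 < normSq z := by rw [normSq_apply]; positivity
  have P0 : 0 < P := hP ▸ inv_pos.2 n
  have P1 : (z.re ^ 2 + z.im ^ 2) * P = 1 := by
    rw [hP, normSq_apply, sq, sq, mul_inv_cancel₀ (normSq_apply z ▸ n.ne')]
  have P2 : P ≤ a ^ 2 / 9 := by
    nlinarith [mul_le_mul hy hy (by norm_num) (by positivity), mul_pos (mul_pos hx hx) P0,
      mul_pos (mul_pos ‹0 < a› ‹0 < a›) (mul_pos (mul_pos hx hx) P0)]
  have r := r0 z
  have c1 := Real.cos_le_one (2 * a * z.im)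
  have r1 : ρ z ≤ 3 / 2 := by
    rw [ρ, ← hP]
    nlinarith
  simp only [ofReal_zero, add_zero, zero_mul] at h1 h2
  have h3 := add_le_add h1 h2
  rw [← add_div, le_div_iff₀ r] at h3
  rw [← hP, abs_div, abs_of_pos (mul_pos two_pos r), div_mul_eq_mul_div, mul_div_mul_right _ _ r.ne']
  refine le_trans ?_ (div_le_div_of_nonneg_right (le_abs_self _) two_pos.le)
  generalize deriv (deriv fun t : ℝ => Real.log (ρ (z + t))) 0 +
    deriv (deriv fun t : ℝ => Real.log (ρ (z + t * I))) 0 = L at *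
  generalize Real.cos (2 * a * z.im) = c at *
  generalize Real.sin (2 * a * z.im) = s at *
  have h4 : L * ρ z ≤ -3 * a ^ 2 * P := h3.trans (by
    have e1 : a * s * z.im * P ^ 2 ≤ 0 := mul_nonpos_of_nonpos_of_nonneg
      (mul_nonpos_of_nonpos_of_nonneg (mul_nonpos_of_nonneg_of_nonpos ‹0 < a›.le hs) y0.le)
      (by positivity)
    have e2 : c * (P - a ^ 2) + 2 * P ^ 2 ≤ -3 / 8 * a ^ 2 := by
      nlinarith [mul_nonneg (sub_nonneg.2 hc) (by nlinarith : 0 ≤ a ^ 2 - P),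
        mul_le_mul P2 (by nlinarith : P ≤ 1 / 144) P0.le (by positivity)]
    have e3 := mul_le_mul_of_nonneg_right e2 P0.le
    linear_combination 16 * e1 + 8 * e3 + (8 * P ^ 3 + (2 * c + 2 * P) * 8 * P ^ 2) * P1)
  by_contra h
  nlinarith [mul_pos (pow_pos ‹0 < a› 2) P0]

theorem tot {F : ℂ → ENNReal} (hF : ∀ z : ℂ, 0 < z.re → 3 ≤ a * z.im →
    1 / 2 ≤ Real.cos (2 * a * z.im) → Real.sin (2 * a * z.im) ≤ 0 →
      ENNReal.ofReal (a ^ 2 * (normSq z)⁻¹) ≤ F z) : ∫⁻ z in {0}ᶜ, F z = ⊤ := by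
  have := a0
  have := Real.pi_gt_three
  have := Real.pi_le_four
  let R : ℕ → Set ℂ := fun n => measurableEquivRealProd ⁻¹' (Ioc 0 ((n + 2) / a) ×ˢ
    Ioc ((Real.pi * (n + 2) - 1 / 2) / a) (Real.pi * (n + 2) / a))
  have m : ∀ n, MeasurableSet (R n) := fun n =>
    measurableEquivRealProd.measurable (measurableSet_Ioc.prod measurableSet_Ioc)
  have e : ∀ n, ∀ z ∈ R n, 0 < z.re ∧ a * z.re ≤ n + 2 ∧ Real.pi * (n + 2) - 1 / 2 < a * z.im ∧
      a * z.im ≤ Real.pi * (n + 2) := fun n z h =>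
    ⟨h.1.1, (le_div_iff₀' a0).1 h.1.2, (div_lt_iff₀' a0).1 h.2.1, (le_div_iff₀' a0).1 h.2.2⟩
  have k : ∀ n : ℕ, ENNReal.ofReal (a ^ 2 / 34 * (1 / ((n + 2 : ℕ) : ℝ))) ≤ ∫⁻ z in R n, F z := by
    intro n
    have n0 : (0 : ℝ) ≤ n := n.cast_nonneg
    refine le_trans (le_of_eq ?_) (setLIntegral_mono' (f := fun _ => ENNReal.ofReal
      (a ^ 4 / (17 * (n + 2) ^ 2))) (m n) fun z hz => ?_)
    · rw [setLIntegral_const, volume_preserving_equiv_real_prod.measure_preimage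
        (measurableSet_Ioc.prod measurableSet_Ioc).nullMeasurableSet, Measure.volume_eq_prod,
        Measure.prod_prod, Real.volume_Ioc, Real.volume_Ioc, ← ENNReal.ofReal_mul (by
          rw [sub_zero]; positivity), ← ENNReal.ofReal_mul (by positivity)]
      congr 1
      push_cast
      field_simp
      ring
    · obtain ⟨e1, e2, e3, e4⟩ := e n z hz
      have q : 2 * a * z.im = -(2 * (Real.pi * (n + 2) - a * z.im)) + (n + 2 : ℕ) * (2 * Real.pi) := by
        push_cast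
        ring
      have y0 : 3 ≤ a * z.im := by nlinarith
      refine le_trans (ENNReal.ofReal_le_ofReal ?_) (hF z e1 y0 ?_ ?_)
      · have : 0 < z.im := by nlinarith
        rw [normSq_apply, ← div_eq_mul_inv, div_le_div_iff₀ (by positivity) (by positivity)]
        have h1 := mul_self_le_mul_self (by positivity) e2
        have h2 := mul_self_le_mul_self (by positivity) (e4.trans
          (mul_le_mul_of_nonneg_right Real.pi_le_four (by positivity)))
        nlinarith [mul_le_mul_of_nonneg_left (add_le_add h1 h2) (sq_nonneg a)]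
      · rw [q, Real.cos_add_nat_mul_two_pi, Real.cos_neg]
        exact le_trans (by nlinarith) Real.one_sub_sq_div_two_le_cos
      · rw [q, Real.sin_add_nat_mul_two_pi, Real.sin_neg, neg_nonpos]
        exact Real.sin_nonneg_of_nonneg_of_le_pi (by linarith) (by linarith)
  by_contra h
  have h1 := ne_top_of_le_ne_top h ((ENNReal.tsum_le_tsum k).trans ((lintegral_iUnion m
    ((pairwise_disjoint_on R).2 fun i j l => ?_) F).symm.trans_le (lintegral_mono_set
      (iUnion_subset fun n z hz c => by simpa [show z = 0 from c] using (e n z hz).1))))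
  · have h2 := ENNReal.summable_toReal h1
    simp only [ENNReal.toReal_ofReal (by positivity : 0 ≤ a ^ 2 / 34 * (1 / ((_ + 2 : ℕ) : ℝ)))] at h2
    exact Real.not_summable_one_div_natCast ((summable_nat_add_iff 2).1
      ((summable_mul_left_iff (by positivity)).1 h2))
  · refine disjoint_left.2 fun z h1 h2 => ?_
    have : (i : ℝ) + 1 ≤ j := by exact_mod_cast l
    nlinarith [(e i z h1).2.2.2, (e j z h2).2.2.1]

theorem cpl {γ γ' : ℝ → ℂ} (h : ∀ t ≥ 0, γ t ≠ 0 ∧ HasDerivAt γ (γ' t) t)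
    (hc : ContinuousOn γ' (Ici 0)) (hK : ∀ K ⊆ {0}ᶜ, IsCompact K → ∀ᶠ t in atTop, γ t ∉ K) :
    ∫⁻ t in Ici 0, ENNReal.ofReal √(ρ (γ t) * ‖γ' t‖ ^ 2) = ⊤ := by
  by_contra k
  set L := ∫⁻ t in Ici 0, ENNReal.ofReal √(ρ (γ t) * ‖γ' t‖ ^ 2)
  have g : ContinuousOn γ (Ici 0) := fun t a => (h t a).2.continuousAt.continuousWithinAt
  have v : ContinuousOn (fun t => (γ t)⁻¹) (Ici 0) := g.inv₀ fun t a => (h t a).1
  have b : ∀ i, ContinuousOn (fun t => A i (γ t)) (Ici 0) → (∀ z, ‖A i z‖ ≤ 1 + (normSq z)⁻¹) →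
      ∀ t ≥ 0, |x (γ t) i| ≤ |x (γ 0) i| + (2 * L).toReal := fun i c n t ht => by
    have e := intervalIntegral.integral_eq_sub_of_hasDerivAt (a := 0) (b := t)
      (fun s hs => dx i (h s (by rw [uIcc_of_le ht] at hs; exact hs.1)).2
        (h s (by rw [uIcc_of_le ht] at hs; exact hs.1)).1)
      (((continuous_re.comp_continuousOn (c.mul hc)).mono (by
        rw [uIcc_of_le ht]; exact Icc_subset_Ici_self)).intervalIntegrable)
    have f : ‖x (γ t) i - x (γ 0) i‖ₑ ≤ 2 * L := by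
      rw [← e, intervalIntegral.integral_of_le ht, ← lintegral_const_mul' _ _ (by simp)]
      refine (enorm_integral_le_lintegral_enorm _).trans ((lintegral_mono fun s => ?_).trans
        (lintegral_mono_set fun s hs => hs.1.le))
      rw [← ofReal_norm, ← ENNReal.ofReal_ofNat, ← ENNReal.ofReal_mul two_pos.le]
      refine ENNReal.ofReal_le_ofReal ((abs_re_le_norm _).trans ?_)
      rw [Real.sqrt_mul (r0 _).le, Real.sqrt_sq (norm_nonneg _), norm_mul, ← mul_assoc]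
      refine mul_le_mul_of_nonneg_right ((n _).trans (abs_le_of_sq_le_sq' ?_ (by positivity)).2)
        (norm_nonneg _)
      rw [mul_pow, Real.sq_sqrt (r0 _).le]
      linarith [rl (γ s)]
    rw [← ofReal_norm, ENNReal.ofReal_le_iff_le_toReal (ENNReal.mul_ne_top (by simp) k),
      Real.norm_eq_abs] at f
    linarith [abs_sub_abs_le_abs_sub (x (γ t) i) (x (γ 0) i)]
  obtain ⟨S, s1, s2, s3⟩ := ann (|x (γ 0) 1| + |x (γ 0) 2| + (2 * L).toReal)
  obtain ⟨t, t1, t2⟩ := ((hK S s1 s2).and (eventually_ge_atTop 0)).exists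
  have b1 := b 1 (continuousOn_const.sub (v.pow 2)) (fun z => (norm_sub_le _ _).trans_eq (by
    simp [normSq_eq_norm_sq])) t t2
  have b2 := b 2 (continuousOn_const.mul (continuousOn_const.add (v.pow 2))) (fun z => by
    simpa [A, normSq_eq_norm_sq] using (norm_add_le 1 (z ^ 2)⁻¹).trans_eq (by simp)) t t2
  exact t1 (s3 _ (h t t2).1 (by linarith [abs_nonneg (x (γ 0) 2)])
    (by linarith [abs_nonneg (x (γ 0) 1)]))

end Pool.Agent.H.MP_7009f9
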